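import Mathlib
import Pool.Agent.LLC.Deg1

/-!
# Points of arithmetic degree one

Let `E` be an algebraically closed field which is algebraic over `ℚ`, let `X` be a smooth
irreducible closed subset of dimension `d` of a product over `i` of projective spaces over `E`, and
let `f` be a self map of `X` given locally by forms such that for every `i` the pull back by `f` of
the class `e_i` of the `i`-th `O(1)` is linearly equivalent to `∑ j, A i j e_j` (`LinActsBy`; such a
presentation exists for instance for every endomorphism of a smooth projective variety with finitely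
generated Picard group). Let the forms `Gc` give a section of a positive multiple `- r₀ K` of
the anticanonical class of `X` (for instance `K = 0` and `Gc` given by a trivialisation).

Let `x` be a point of `X` of arithmetic degree one with infinite orbit. All but
`C (log n)^d` of the first `n` points of the orbit of `x` which are not zeros of the section lie on
irreducible curves in `X` on which the iterates of `f` are given, as rational maps, by forms of
polynomially bounded degree.

Proof: by `Pool/Agent/LLC/Curves.lean` with `κ` constant (`anti_tanHt`), and since the heights of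
the points of the orbit grow polynomially (a subexponential solution of a perturbed linear recursion
is polynomially bounded).
-/

set_option autoImplicit false

open MvPolynomial
open scoped LinearAlgebra.Projectivization
open Pool.Agent.Helper90.KSC Pool.Agent.Helper63.SAND Pool.Agent.Helper63.WH Pool.Agent.PW
  Pool.Agent.LLX Pool.Agent.LLC

namespace Pool.Agent.Results.MP_0e7dfd_ag.ArithmeticDegreeOne

theorem result {E : Type*} [Field E] [CharZero E] [Algebra.IsAlgebraic ℚ E] [IsAlgClosed E]
    {ι : Type*} [Fintype ι] [DecidableEq ι] {N : ι → ℕ} (X : Set (PPt E N)) (hX : ZClosed X)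
    (hXi : Irred X) (d e₀ : ℕ) (hdeg : HasDegree X d e₀) (hsm : SmoothDim X d)
    (f : PPt E N → PPt E N) (hf : Set.MapsTo f X X) (hloc : LocallyByForms X f)
    (A : Matrix ι ι ℤ) (hA : LinActsBy X f A) (r₀ m₁ : ℕ) (hr₀ : 1 ≤ r₀)
    (Gc : (Fin (d + 1) → SIx N) × (Fin m₁ → SIx N) → MvPolynomial (SIx N) E)
    (hGc : AntiCan (fun x : X => seg (x : PPt E N)) d r₀ m₁ Gc) (x : PPt E N) (hx : x ∈ X)
    (ha : AbsArithDegree f x 1) (hinf : Function.Injective fun n : ℕ => f^[n] x) :
    ∃ C : ℕ, ∀ n : ℕ, 2 ≤ n → ∃ J : Finset ℕ, (J.card : ℝ) ≤ C * Real.log n ^ d ∧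
      ∀ j < n, j ∉ J → (∃ I, eval (seg (f^[j] x)) (Gc I) ≠ 0) →
        ∃ Z ⊆ X, ZClosed Z ∧ Irred Z ∧ f^[j] x ∈ Z ∧ (∃ e : ℕ, 1 ≤ e ∧ HasDegree Z 1 e) ∧
          ∃ C' : ℕ, ∀ m : ℕ, ∃ k : ℕ, k ≤ C' * (1 + m) ^ C' ∧ RepBy Z f^[m] k :=
  degree_one X hX hXi d e₀ hdeg hsm f hf hloc A hA r₀ m₁ hr₀ Gc hGc x hx ha hinf

end Pool.Agent.Results.MP_0e7dfd_ag.ArithmeticDegreeOne
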