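import Mathlib
import Pool.Agent.KSF.Final

/-!
# Every fibre of large height contains points of maximal arithmetic degree

Let `E` be an algebraically closed field which is algebraic over `ℚ`, let `X` be a closed irreducible
subset of a product over `i` of projective spaces over `E`, let `K` be a subfield of `E` and let `f` be
a self map of `X` which is given locally by forms with coefficients in `K` (`LocallyOver`), and such
that for every `i` the pull back by `f` of the class `e_i` of the `i`-th `O(1)` is numerically
equivalent to `∑ j, A i j e_j` (`ActsBy`). Such a presentation exists for every endomorphism of a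
projective variety `X` over the algebraic numbers: embed `X` by very ample line bundles whose classes
form a basis of `N^1(X)`; everything is defined over a number field. Let `δ` be the first dynamical
degree of `f` (`IsDynDegree`).

Let `π : X → ℙ^d` be a surjective map given by forms `l 0, ..., l d` of degree `e ≥ 1` in the Segre
coordinates without common zero on `X` (so `π` is finite and `d` is the dimension of `X`). Then there
is a bound `B` such that for every point `t` of `ℙ^d` over `E` of absolute logarithmic height larger
than `B` the fibre of `π` over `t` contains a point `x` of maximal arithmetic degree: `δ ≤ b` whenever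
`b` is the arithmetic degree of `x`, or of a conjugate of `x` over `K`.

In particular, if the fibre over `t` consists of conjugate points over `K` (by Hilbert's
irreducibility theorem this is so for most `t` in `ℙ^d(K)`), then all its points have maximal
arithmetic degree. There is no assumption on the orbits.

Proof: norm forms of the iterates with respect to `π`, their factorisation over every point `t`
(integrality and Nullstellensatz), conductors, and the uniform bound for the heights of the iterates
at the exceptional points (`Pool/Agent/KSF`).
-/

set_option autoImplicit false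

open MvPolynomial
open scoped LinearAlgebra.Projectivization
open Pool.Agent.Helper90.KSC Pool.Agent.Helper63.SAND Pool.Agent.Helper63.WH Pool.Agent.KSF

namespace Pool.Agent.Results.MP_0e7dfd_ag.MaximalInFibres

theorem result {E : Type*} [Field E] [CharZero E] [Algebra.IsAlgebraic ℚ E] [IsAlgClosed E]
    {ι : Type*} [Fintype ι] [DecidableEq ι] {N : ι → ℕ} (K : IntermediateField ℚ E)
    (X : Set (PPt E N)) (hX : ZClosed X) (hXi : Irred X) (f : PPt E N → PPt E N)
    (hf : Set.MapsTo f X X) (hloc : LocallyOver K X f) (A : Matrix ι ι ℤ) (hA : ActsBy X f A)
    (δ : ℝ) (hδ : IsDynDegree X f δ) (d e : ℕ) (he : 1 ≤ e)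
    (l : Fin (d + 1) → MvPolynomial (SIx N) E) (hl : ∀ i, (l i).IsHomogeneous e)
    (hbase : ∀ x ∈ X, ∃ i, eval (seg x) (l i) ≠ 0)
    (hsurj : ∀ t : Fin (d + 1) → E, t ≠ 0 →
      ∃ x ∈ X, ∃ c : E, c ≠ 0 ∧ ∀ i, eval (seg x) (l i) = c * t i) :
    ∃ B : ℝ, ∀ t : Fin (d + 1) → E, t ≠ 0 → B < absHeight t →
      ∃ x ∈ X, (∃ c : E, c ≠ 0 ∧ ∀ i, eval (seg x) (l i) = c * t i) ∧
        ∀ (σ : E ≃ₐ[K] E), ∀ x' ∈ X, IsConj (σ : E ≃+* E) x x' →
          ∀ b : ℝ, AbsArithDegree f x' b → δ ≤ b :=
  final K X hX hXi f hf hloc A hA δ hδ d e he l hl hbase hsurj

end Pool.Agent.Results.MP_0e7dfd_ag.MaximalInFibres
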