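import Pool.Agent.Helper90.KSC.Main

/-! For a Zariski dense orbit the arithmetic degree is an eigenvalue with an eigenvector that is
nonnegative on all pseudoeffective classes. -/

namespace Pool.Agent.Results.MP_0e7dfd_ag.MovableEigenvector

open Pool.Agent.Helper90.KSC

/-- Let `X` be an irreducible set of `K`-points of a product of projective spaces, `f` a
Zariski continuous self map of `X` whose action on the classes of the `O(1)` of the factors is
given by `A` up to numerical equivalence, and `x` a point of `X` with an infinite and Zariski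
dense orbit. Then the arithmetic degree of `f` at `x` is a real number `a ≥ 1` with an
eigenvector `A w = a w`, `w ≠ 0`, which is nonnegative on every pseudoeffective class. -/
theorem result {K : Type*} [Field K] [NumberField K] {ι : Type*} [Fintype ι] [DecidableEq ι]
    {N : ι → ℕ} (X : Set (PPt K N)) (hX : Irred X) (f : PPt K N → PPt K N)
    (hf : Set.MapsTo f X X) (hc : ZCont X f) (A : Matrix ι ι ℤ) (hA : ActsBy X f A)
    (x : PPt K N) (hx : x ∈ X) (hinj : Function.Injective fun n : ℕ => f^[n] x)
    (hd : DenseOrbit X f x) :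
    ∃ a : ℝ, 1 ≤ a ∧ ArithDegree f x a ∧
      ∃ w : ι → ℝ, w ≠ 0 ∧ (∀ i, 0 ≤ w i) ∧ (∀ c, Pseff X c → 0 ≤ ∑ i, c i * w i) ∧
        (A.map (Int.cast : ℤ → ℝ)).mulVec w = a • w := by
  obtain ⟨a, ha, h1, _, h2⟩ := main X f hf A hA x hx hinj
  exact ⟨a, ha, h1, h2 hX hc hd⟩

end Pool.Agent.Results.MP_0e7dfd_ag.MovableEigenvector
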