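import Mathlib
import Pool.Agent.PW.Final

/-!
# Points of small arithmetic degree lie on few slow subvarieties

Let `E` be an algebraically closed field which is algebraic over `ℚ`, let `X` be a subset of a
product over `i` of projective spaces over `E`, and let `f` be a self map of `X` which is given
locally by forms (`LocallyByForms`), and such that for every `i` the pull back by `f` of the class
`e_i` of the `i`-th `O(1)` is numerically equivalent to `∑ j, A i j e_j` (`ActsBy`). Such a
presentation exists for every endomorphism of a projective variety `X` over the algebraic numbers: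
embed `X` by very ample line bundles whose classes form a basis of `N^1(X)`.

Let `δ` be a real number, for instance the first dynamical degree of `f`; the points `x` with
`a_f(x) < δ` are called bad. There is `r < δ` such that for all `ρ > r` (for instance some
`ρ < δ`) and all irreducible closed `Y ⊆ X` the bad points of `Y` of degree `≤ D` over `ℚ` and of
logarithmic height `≤ h` lie on at most `C (1 + h)^C` irreducible closed `Z ⊆ Y`, each of degree
`e ≤ C (1 + h)^C`, and each of these is slow: for some `n` with
`C₁ (1 + log e) ≤ n ≤ C log (2 + h)` the iterate `f^n` is given on `Z` by forms of degree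
`≤ ρ^n`. (Single points are slow.)

Proof: determinant method on the graphs of the iterates of `f` (Bombieri-Pila, Heath-Brown,
Salberger), with absolute heights (`Pool/Agent/Helper63/WH`), uniformly in `Z`
(`WH/CoreC.lean`); recursion on irreducible components of hypersurface sections with a conductor
of degree at most the square of the degree of `Z` (`Pool/Agent/PW`).
-/

set_option autoImplicit false

open scoped LinearAlgebra.Projectivization
open Pool.Agent.Helper90.KSC Pool.Agent.Helper63.SAND Pool.Agent.Helper63.WH Pool.Agent.PW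

namespace Pool.Agent.Results.MP_0e7dfd_ag.SlowSubvarieties

theorem result {E : Type*} [Field E] [CharZero E] [Algebra.IsAlgebraic ℚ E] [IsAlgClosed E]
    {ι : Type*} [Fintype ι] [DecidableEq ι] {N : ι → ℕ} (X : Set (PPt E N))
    (f : PPt E N → PPt E N) (hf : Set.MapsTo f X X) (hloc : LocallyByForms X f)
    (A : Matrix ι ι ℤ) (hA : ActsBy X f A) (δ : ℝ) :
    ∃ r < δ, ∀ ρ, r < ρ → ∀ Y ⊆ X, ZClosed Y → Irred Y → ∀ (D : ℕ) (C₁ : ℝ),
      ∃ C : ℕ, ∀ h : ℝ, 0 ≤ h → ∃ S : Set (Set (PPt E N)),
        S.Finite ∧ (S.ncard : ℝ) ≤ C * (1 + h) ^ C ∧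
        (∀ Z ∈ S, Z ⊆ Y ∧ ZClosed Z ∧ Irred Z ∧ ∃ d e n k : ℕ, HasDegree Z d e ∧ 1 ≤ e ∧
          (e : ℝ) ≤ C * (1 + h) ^ C ∧ C₁ * (1 + Real.log e) ≤ n ∧
          n ≤ C * Real.log (2 + h) ∧ (k : ℝ) ≤ ρ ^ n ∧ RepBy Z f^[n] k) ∧
        ∀ x ∈ Y, DegLE D x → absTotal x ≤ h → (∃ a < δ, AbsArithDegree f x a) →
          ∃ Z ∈ S, x ∈ Z :=
  pw X f hf hloc A hA δ

end Pool.Agent.Results.MP_0e7dfd_ag.SlowSubvarieties
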